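import Pool.Agent.MldX.DefectX

set_option autoImplicit false

/-!
# MP_fa3f7f_ag: a dimension-free ascending chain condition for minimal log discrepancies

The numbers `dim X / 2 - mld_x(X)`, where `(X, x)` runs over the isolated quotient singularities
`(ℂⁿ / G, 0)` of all dimensions `n ≥ 2`, form a well founded set of real numbers. The minimal log
discrepancies are the geometric ones: infima over all prime divisors over `X` with centre `x` of log
discrepancies computed from the orders of rational differential forms (`Pool/Agent/MldX/Defs.lean`).
-/

namespace Pool.Agent.Results.MP_fa3f7f_ag.DefectACC

theorem result : MldX.defects.IsWF :=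
  MldX.defects_isWF

end Pool.Agent.Results.MP_fa3f7f_ag.DefectACC
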